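import Pool.Agent.GRA.StmtsM
import Pool.Agent.Helper64_FR.Basic
import Pool.Agent.Helper64_FR.FIX

/-!
# Row MDE: decomposition of the vectors fixed by `U_{last}` into irreducible representations
-/

open MeasureTheory Matrix Finset
open scoped ComplexConjugate

namespace Pool.Agent.GRA.H21

open Pool.Agent.Helper64_FR Pool.Agent.UTR Pool.Agent.GRA

variable {n : ℕ}

theorem continuous_emb : Continuous (emb : UU n →* UU (n + 1)) := by
  refine Continuous.subtype_mk ?_ _
  refine continuous_matrix fun i j => ?_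
  refine Fin.lastCases ?_ (fun i' => ?_) i <;> refine Fin.lastCases ?_ (fun j' => ?_) j
  · simp only [embM_ll]; exact continuous_const
  · simp only [embM_lc]; exact continuous_const
  · simp only [embM_cl]; exact continuous_const
  · simp only [embM_cc]
    exact (continuous_apply_apply i' j').comp continuous_subtype_val

/-- the restriction of `ρ` to `U(n)` -/
def resEmb (ρ : URep (n + 1)) : URep n where
  dim := ρ.dim
  hom := ρ.hom.comp emb
  cont := ρ.cont.comp continuous_emb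

theorem resEmb_op (ρ : URep (n + 1)) (g : UU n) : (resEmb ρ).op g = ρ.op (emb g) := rfl

/-- the vectors fixed by `U_{last}` -/
def W0 (ρ : URep (n + 1)) : Submodule ℂ ρ.Sp where
  carrier := {f | Fx ρ {Fin.last n} f}
  add_mem' := by
    intro a b ha hb h hh
    rw [map_add, ha h hh, hb h hh]
  zero_mem' := by
    intro h _
    rw [map_zero]
  smul_mem' := by
    intro c a ha h hh
    rw [map_smul, ha h hh]

theorem comm_last (h : UU (n + 1)) (hh : h ∈ UB ({Fin.last n} : Finset (Fin (n + 1))))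
    (g : UU n) : h * emb g = emb g * h := by
  have hh' : ∀ i j, (i ∉ ({Fin.last n} : Finset (Fin (n + 1))) ∨
      j ∉ ({Fin.last n} : Finset (Fin (n + 1)))) →
      (h : Matrix (Fin (n + 1)) (Fin (n + 1)) ℂ) i j = if i = j then 1 else 0 := hh
  have e : (h : Matrix (Fin (n + 1)) (Fin (n + 1)) ℂ) =
      embM 1 ((h : Matrix (Fin (n + 1)) (Fin (n + 1)) ℂ) (Fin.last n) (Fin.last n)) := by
    ext i j
    refine Fin.lastCases ?_ (fun i' => ?_) i <;> refine Fin.lastCases ?_ (fun j' => ?_) j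
    · rw [embM_ll]
    · rw [embM_lc, hh' _ _ (Or.inr (by simp [Fin.ext_iff, j'.2.ne])),
        if_neg (Fin.castSucc_lt_last j').ne']
    · rw [embM_cl, hh' _ _ (Or.inl (by simp [Fin.ext_iff, i'.2.ne])),
        if_neg (Fin.castSucc_lt_last i').ne]
    · rw [embM_cc, hh' _ _ (Or.inl (by simp [Fin.ext_iff, i'.2.ne])), Matrix.one_apply]
      simp
  apply Subtype.ext
  show (h : Matrix (Fin (n + 1)) (Fin (n + 1)) ℂ) * embM (g : Matrix (Fin n) (Fin n) ℂ) 1 =
    embM (g : Matrix (Fin n) (Fin n) ℂ) 1 * (h : Matrix (Fin (n + 1)) (Fin (n + 1)) ℂ)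
  rw [e, ← embM_mul, ← embM_mul, one_mul, mul_one, one_mul, mul_one]

theorem W0_inv (ρ : URep (n + 1)) (g : UU n) (x : ρ.Sp) (hx : x ∈ W0 ρ) :
    ρ.op (emb g) x ∈ W0 ρ := by
  intro h hh
  rw [← mul_apply_eq_comp, ← URep.op_mul, comm_last h hh, URep.op_mul,
    mul_apply_eq_comp, hx h hh]

/-- a component: a representation with an isometric embedding -/
abbrev CT (ρ : URep (n + 1)) : Type := Σ σ : URep n, (σ.Sp →ₗᵢ[ℂ] ρ.Sp)

/-- a decomposition of the invariant space `W` -/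
structure DecW (ρ : URep (n + 1)) (W : Submodule ℂ ρ.Sp) (m : ℕ) (F : Fin m → CT ρ) : Prop where
  irr : ∀ t, (F t).1.Irred
  cmp : ∀ t, Cmp ρ (F t).1 (F t).2
  mem : ∀ t x, (F t).2 x ∈ W
  orth : ∀ t s, t ≠ s → ∀ x y, (inner ℂ ((F t).2 x) ((F s).2 y) : ℂ) = 0
  tot : ∀ f ∈ W, f = ∑ t, (F t).2 (pr (F t).2 f)

theorem inner_pr (ρ : URep (n + 1)) (σ : URep n) (T : σ.Sp →ₗᵢ[ℂ] ρ.Sp) (x : σ.Sp) (y : ρ.Sp) :
    (inner ℂ x (pr T y) : ℂ) = inner ℂ (T x) y := by
  unfold pr
  rw [ContinuousLinearMap.adjoint_inner_right]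
  rfl

theorem pr_T (ρ : URep (n + 1)) (σ : URep n) (T : σ.Sp →ₗᵢ[ℂ] ρ.Sp) (x : σ.Sp) :
    pr T (T x) = x := by
  refine ext_inner_left ℂ fun y => ?_
  rw [inner_pr]
  exact T.inner_map_map y x

theorem exists_decW (hMIR : MIRStmt) (ρ : URep (n + 1)) : ∀ (k : ℕ) (W : Submodule ℂ ρ.Sp),
    W ≤ W0 ρ → (∀ g : UU n, ∀ x ∈ W, ρ.op (emb g) x ∈ W) → Module.finrank ℂ W ≤ k →
    ∃ (m : ℕ) (F : Fin m → CT ρ), DecW ρ W m F := by
  intro k
  induction k with
  | zero =>
    intro W _ _ hk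
    have hb : W = ⊥ := Submodule.finrank_eq_zero.1 (Nat.le_zero.1 hk)
    refine ⟨0, Fin.elim0, ⟨fun t => t.elim0, fun t => t.elim0, fun t => t.elim0,
      fun t => t.elim0, ?_⟩⟩
    intro f hf
    rw [hb, Submodule.mem_bot] at hf
    simp [hf]
  | succ k ih =>
    intro W h0 hinv hk
    by_cases hb : W = ⊥
    · refine ⟨0, Fin.elim0, ⟨fun t => t.elim0, fun t => t.elim0, fun t => t.elim0,
        fun t => t.elim0, ?_⟩⟩
      intro f hf
      rw [hb, Submodule.mem_bot] at hf
      simp [hf]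
    obtain ⟨σ, T, hirr, heqv, hmem⟩ := hMIR n (resEmb ρ) W hinv hb
    let T' : σ.Sp →ₗᵢ[ℂ] ρ.Sp := T
    have hmem' : ∀ x, T' x ∈ W := hmem
    have heqv' : ∀ (g : UU n) (x : σ.Sp), T' (σ.op g x) = ρ.op (emb g) (T' x) := heqv
    let W1 : Submodule ℂ ρ.Sp :=
      { carrier := {f | f ∈ W ∧ ∀ x, (inner ℂ (T' x) f : ℂ) = 0}
        add_mem' := by
          rintro a b ⟨ha, ha'⟩ ⟨hb, hb'⟩
          refine ⟨W.add_mem ha hb, fun x => ?_⟩
          rw [inner_add_right, ha' x, hb' x, add_zero]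
        zero_mem' := ⟨W.zero_mem, fun x => inner_zero_right _⟩
        smul_mem' := by
          rintro c a ⟨ha, ha'⟩
          refine ⟨W.smul_mem c ha, fun x => ?_⟩
          rw [inner_smul_right, ha' x, mul_zero] }
    have hW1 : ∀ f, f ∈ W1 ↔ f ∈ W ∧ ∀ x, (inner ℂ (T' x) f : ℂ) = 0 := fun f => Iff.rfl
    have hle : W1 ≤ W := fun f hf => hf.1
    have hlt : W1 < W := by
      refine lt_of_le_of_ne hle fun he => ?_
      have : Nonempty (Fin σ.dim) := ⟨⟨0, hirr.1⟩⟩
      have : Nontrivial σ.Sp := inferInstance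
      obtain ⟨x, hx⟩ := exists_ne (0 : σ.Sp)
      have h1 : T' x ∈ W1 := by rw [he]; exact hmem' x
      have h2 := ((hW1 _).1 h1).2 x
      rw [inner_self_eq_zero] at h2
      exact hx (T'.injective (h2.trans (map_zero T').symm))
    have hfr : Module.finrank ℂ W1 < Module.finrank ℂ W := Submodule.finrank_lt_finrank_of_lt hlt
    have hinv1 : ∀ g : UU n, ∀ x ∈ W1, ρ.op (emb g) x ∈ W1 := by
      intro g x hx
      obtain ⟨hx1, hx2⟩ := (hW1 _).1 hx
      refine (hW1 _).2 ⟨hinv g x hx1, fun z => ?_⟩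
      have h3 := FIX.inner_op_left ρ (emb g)⁻¹ (T' z) x
      rw [inv_inv] at h3
      rw [← h3, ← map_inv, ← heqv']
      exact hx2 _
    obtain ⟨m, F, hF⟩ := ih W1 (hle.trans h0) hinv1 (by omega)
    let G : Fin (m + 1) → CT ρ := Fin.cons (⟨σ, T'⟩ : CT ρ) F
    have hG0 : G 0 = ⟨σ, T'⟩ := rfl
    have hGs : ∀ t : Fin m, G t.succ = F t := fun t => rfl
    refine ⟨m + 1, G, ⟨?_, ?_, ?_, ?_, ?_⟩⟩
    · intro t
      refine Fin.cases ?_ (fun t => ?_) t
      · exact hirr
      · exact hF.irr t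
    · intro t
      refine Fin.cases ?_ (fun t => ?_) t
      · exact ⟨heqv', fun x => h0 (hmem' x)⟩
      · exact hF.cmp t
    · intro t
      refine Fin.cases ?_ (fun t => ?_) t
      · exact hmem'
      · exact fun x => hle (hF.mem t x)
    · intro t s
      refine Fin.cases ?_ (fun t => ?_) t
      · refine Fin.cases ?_ (fun s => ?_) s
        · intro h; exact absurd rfl h
        · intro _ x y
          exact ((hW1 _).1 (hF.mem s y)).2 x
      · refine Fin.cases ?_ (fun s => ?_) s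
        · intro _ x y
          have h4 : (inner ℂ (T' y) ((F t).2 x) : ℂ) = 0 := ((hW1 _).1 (hF.mem t x)).2 y
          have h5 := inner_conj_symm (𝕜 := ℂ) ((F t).2 x) (T' y)
          rw [h4, map_zero] at h5
          exact h5.symm
        · intro h x y
          exact hF.orth t s (fun he => h (by rw [he])) x y
    · intro f hf
      rw [Fin.sum_univ_succ]
      show f = T' (pr T' f) + ∑ t : Fin m, (F t).2 (pr (F t).2 f)
      have h6 : f - T' (pr T' f) ∈ W1 := by
        refine (hW1 _).2 ⟨W.sub_mem hf (hmem' _), fun z => ?_⟩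
        rw [inner_sub_right, T'.inner_map_map, inner_pr, sub_self]
      have h7 := hF.tot _ h6
      have h8 : ∀ t : Fin m, pr (F t).2 (f - T' (pr T' f)) = pr (F t).2 f := by
        intro t
        rw [map_sub]
        have h9 : pr (F t).2 (T' (pr T' f)) = 0 := by
          refine ext_inner_left ℂ fun y => ?_
          rw [inner_pr, inner_zero_right]
          have h4 : (inner ℂ (T' (pr T' f)) ((F t).2 y) : ℂ) = 0 :=
            ((hW1 _).1 (hF.mem t y)).2 _
          have h5 := inner_conj_symm (𝕜 := ℂ) ((F t).2 y) (T' (pr T' f))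
          rw [h4, map_zero] at h5
          exact h5.symm
        rw [h9, sub_zero]
      simp only [h8] at h7
      rw [← h7]
      abel

theorem mde (hMIR : MIRStmt) : MDEStmt := by
  intro n ρ
  obtain ⟨m, F, hF⟩ := exists_decW hMIR ρ _ (W0 ρ) le_rfl (W0_inv ρ) le_rfl
  exact ⟨⟨m, fun t => (F t).1, fun t => (F t).2, hF.irr, hF.cmp, hF.orth, hF.tot⟩⟩

end Pool.Agent.GRA.H21
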