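import Pool.Agent.GRA.StmtsM
import Pool.Agent.Helper64_FR.Basic

/-!
# Row MIR: an irreducible component of a representation
-/

open MeasureTheory Matrix Finset
open scoped ComplexConjugate

namespace Pool.Agent.GRA.H21

open Pool.Agent.Helper64_FR Pool.Agent.UTR Pool.Agent.GRA

variable {n : ℕ}

/-- the restriction of `τ(g)` to the range of the isometry `T` -/
noncomputable def rop (τ : URep n) {d : ℕ} (T : EuclideanSpace ℂ (Fin d) →ₗᵢ[ℂ] τ.Sp) (g : UU n) :
    EuclideanSpace ℂ (Fin d) →L[ℂ] EuclideanSpace ℂ (Fin d) :=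
  (ContinuousLinearMap.adjoint T.toContinuousLinearMap).comp
    ((τ.op g).comp T.toContinuousLinearMap)

theorem adj_T (τ : URep n) {d : ℕ} (T : EuclideanSpace ℂ (Fin d) →ₗᵢ[ℂ] τ.Sp)
    (x : EuclideanSpace ℂ (Fin d)) :
    ContinuousLinearMap.adjoint T.toContinuousLinearMap (T x) = x := by
  refine ext_inner_left ℂ fun y => ?_
  rw [ContinuousLinearMap.adjoint_inner_right]
  exact T.inner_map_map y x

theorem T_adj (τ : URep n) {d : ℕ} (T : EuclideanSpace ℂ (Fin d) →ₗᵢ[ℂ] τ.Sp)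
    (y : τ.Sp) (hy : ∃ x, T x = y) :
    T (ContinuousLinearMap.adjoint T.toContinuousLinearMap y) = y := by
  obtain ⟨x, rfl⟩ := hy
  rw [adj_T]

theorem T_rop (τ : URep n) {d : ℕ} (T : EuclideanSpace ℂ (Fin d) →ₗᵢ[ℂ] τ.Sp)
    (hT : ∀ (g : UU n) x, ∃ y, T y = τ.op g (T x)) (g : UU n) (x : EuclideanSpace ℂ (Fin d)) :
    T (rop τ T g x) = τ.op g (T x) :=
  T_adj τ T _ (hT g x)

theorem rop_mul (τ : URep n) {d : ℕ} (T : EuclideanSpace ℂ (Fin d) →ₗᵢ[ℂ] τ.Sp)
    (hT : ∀ (g : UU n) x, ∃ y, T y = τ.op g (T x)) (g h : UU n) :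
    rop τ T (g * h) = rop τ T g * rop τ T h := by
  ext1 x
  apply T.injective
  rw [T_rop τ T hT, mul_apply_eq_comp, T_rop τ T hT, T_rop τ T hT, URep.op_mul,
    mul_apply_eq_comp]

theorem rop_one (τ : URep n) {d : ℕ} (T : EuclideanSpace ℂ (Fin d) →ₗᵢ[ℂ] τ.Sp)
    (hT : ∀ (g : UU n) x, ∃ y, T y = τ.op g (T x)) :
    rop τ T 1 = 1 := by
  ext1 x
  apply T.injective
  rw [T_rop τ T hT, URep.op_one, one_apply_eq_self, one_apply_eq_self]

theorem rop_star (τ : URep n) {d : ℕ} (T : EuclideanSpace ℂ (Fin d) →ₗᵢ[ℂ] τ.Sp) (g : UU n) :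
    star (rop τ T g) = rop τ T g⁻¹ := by
  unfold rop
  rw [ContinuousLinearMap.star_eq_adjoint, ContinuousLinearMap.adjoint_comp,
    ContinuousLinearMap.adjoint_comp, ContinuousLinearMap.adjoint_adjoint, ← URep.op_star,
    ContinuousLinearMap.star_eq_adjoint, ContinuousLinearMap.comp_assoc]

/-- the matrix of the restriction -/
noncomputable def rmat (τ : URep n) {d : ℕ} (T : EuclideanSpace ℂ (Fin d) →ₗᵢ[ℂ] τ.Sp) (g : UU n) :
    Matrix (Fin d) (Fin d) ℂ :=
  (Matrix.toEuclideanCLM (n := Fin d) (𝕜 := ℂ)).symm (rop τ T g)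

theorem rmat_mem (τ : URep n) {d : ℕ} (T : EuclideanSpace ℂ (Fin d) →ₗᵢ[ℂ] τ.Sp)
    (hT : ∀ (g : UU n) x, ∃ y, T y = τ.op g (T x)) (g : UU n) :
    rmat τ T g ∈ Matrix.unitaryGroup (Fin d) ℂ := by
  rw [Matrix.mem_unitaryGroup_iff]
  unfold rmat
  rw [← map_star, ← map_mul, rop_star, ← rop_mul τ T hT, mul_inv_cancel, rop_one τ T hT, map_one]

/-- the restriction of `τ` to the range of `T` as a representation -/
noncomputable def res (τ : URep n) {d : ℕ} (T : EuclideanSpace ℂ (Fin d) →ₗᵢ[ℂ] τ.Sp)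
    (hT : ∀ (g : UU n) x, ∃ y, T y = τ.op g (T x)) : URep n where
  dim := d
  hom :=
    { toFun := fun g => ⟨rmat τ T g, rmat_mem τ T hT g⟩
      map_one' := by
        apply Subtype.ext
        show rmat τ T 1 = 1
        unfold rmat
        rw [rop_one τ T hT, map_one]
      map_mul' := by
        intro g h
        apply Subtype.ext
        show rmat τ T (g * h) = rmat τ T g * rmat τ T h
        unfold rmat
        rw [rop_mul τ T hT, map_mul] }
  cont := by
    refine Continuous.subtype_mk ?_ _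
    let f : Matrix (Fin τ.dim) (Fin τ.dim) ℂ →ₗ[ℂ] Matrix (Fin d) (Fin d) ℂ :=
      { toFun := fun M => (Matrix.toEuclideanCLM (n := Fin d) (𝕜 := ℂ)).symm
          ((ContinuousLinearMap.adjoint T.toContinuousLinearMap).comp
            ((Matrix.toEuclideanCLM (n := Fin τ.dim) (𝕜 := ℂ) M).comp T.toContinuousLinearMap))
        map_add' := by
          intro a b
          rw [map_add, ContinuousLinearMap.add_comp, ContinuousLinearMap.comp_add, map_add]
        map_smul' := by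
          intro c a
          rw [map_smul, ContinuousLinearMap.smul_comp, ContinuousLinearMap.comp_smul, map_smul]
          rfl }
    have hf : Continuous f := LinearMap.continuous_of_finiteDimensional f
    exact hf.comp τ.continuous_mat

theorem res_op (τ : URep n) {d : ℕ} (T : EuclideanSpace ℂ (Fin d) →ₗᵢ[ℂ] τ.Sp)
    (hT : ∀ (g : UU n) x, ∃ y, T y = τ.op g (T x)) (g : UU n) :
    (res τ T hT).op g = rop τ T g := by
  show Matrix.toEuclideanCLM (n := Fin d) (𝕜 := ℂ)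
    ((Matrix.toEuclideanCLM (n := Fin d) (𝕜 := ℂ)).symm (rop τ T g)) = rop τ T g
  exact (Matrix.toEuclideanCLM (n := Fin d) (𝕜 := ℂ)).apply_symm_apply (rop τ T g)

theorem mir : MIRStmt := by
  classical
  intro n τ W hW hne
  have hex : ∃ d, ∃ W' : Submodule ℂ τ.Sp, W' ≤ W ∧ (∀ g : UU n, ∀ x ∈ W', τ.op g x ∈ W') ∧
      W' ≠ ⊥ ∧ Module.finrank ℂ W' = d := ⟨_, W, le_rfl, hW, hne, rfl⟩
  obtain ⟨W', hle, hinv, hne', hd⟩ := Nat.find_spec hex
  have hmin : ∀ V : Submodule ℂ τ.Sp, V ≤ W → (∀ g : UU n, ∀ x ∈ V, τ.op g x ∈ V) → V ≠ ⊥ →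
      Nat.find hex ≤ Module.finrank ℂ V := fun V h1 h2 h3 => Nat.find_min' hex ⟨V, h1, h2, h3, rfl⟩
  rw [← hd] at hmin
  let T : EuclideanSpace ℂ (Fin (Module.finrank ℂ W')) →ₗᵢ[ℂ] τ.Sp :=
    W'.subtypeₗᵢ.comp (stdOrthonormalBasis ℂ W').repr.symm.toLinearIsometry
  have hTmem : ∀ x, T x ∈ W' := fun x =>
    ((stdOrthonormalBasis ℂ W').repr.symm x).2
  have hTsurj : ∀ y ∈ W', ∃ x, T x = y := by
    intro y hy
    refine ⟨(stdOrthonormalBasis ℂ W').repr ⟨y, hy⟩, ?_⟩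
    show (((stdOrthonormalBasis ℂ W').repr.symm ((stdOrthonormalBasis ℂ W').repr ⟨y, hy⟩) : W') :
      τ.Sp) = y
    rw [LinearIsometryEquiv.symm_apply_apply]
  have hT : ∀ (g : UU n) x, ∃ y, T y = τ.op g (T x) := fun g x =>
    hTsurj _ (hinv g _ (hTmem x))
  refine ⟨res τ T hT, T, ⟨?_, ?_⟩, ?_, fun x => hle (hTmem x)⟩
  · show 0 < Module.finrank ℂ W'
    rw [Module.finrank_pos_iff]
    exact Submodule.nontrivial_iff_ne_bot.2 hne'
  · intro V hV
    by_cases hb : V = ⊥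
    · exact Or.inl hb
    right
    let e : (Fin (Module.finrank ℂ W') → ℂ) →ₗ[ℂ] τ.Sp :=
      T.toLinearMap ∘ₗ
        ((WithLp.linearEquiv 2 ℂ (Fin (Module.finrank ℂ W') → ℂ)).symm :
          (Fin (Module.finrank ℂ W') → ℂ) →ₗ[ℂ] EuclideanSpace ℂ (Fin (Module.finrank ℂ W')))
    have he : Function.Injective e := by
      intro x y hxy
      exact (WithLp.linearEquiv 2 ℂ (Fin (Module.finrank ℂ W') → ℂ)).symm.injective
        (T.injective hxy)
    have h1 : V.map e ≤ W := by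
      rintro _ ⟨x, _, rfl⟩
      exact hle (hTmem _)
    have h2 : ∀ g : UU n, ∀ x ∈ V.map e, τ.op g x ∈ V.map e := by
      rintro g _ ⟨x, hx, rfl⟩
      refine ⟨(res τ T hT).mat g *ᵥ x, hV g x hx, ?_⟩
      show T (WithLp.toLp 2 ((res τ T hT).mat g *ᵥ x)) = τ.op g (T (WithLp.toLp 2 x))
      rw [← T_rop τ T hT, ← res_op τ T hT]
      rfl
    have h3 : V.map e ≠ ⊥ := by
      intro h
      apply hb
      rw [Submodule.eq_bot_iff]
      intro x hx
      have h6 : e x ∈ V.map e := ⟨x, hx, rfl⟩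
      rw [h, Submodule.mem_bot] at h6
      exact he (h6.trans (map_zero e).symm)
    have h4 := hmin _ h1 h2 h3
    have h5 : Module.finrank ℂ V = Module.finrank ℂ (V.map e) :=
      LinearEquiv.finrank_eq (Submodule.equivMapOfInjective e he V)
    apply Submodule.eq_top_of_finrank_eq
    apply le_antisymm (Submodule.finrank_le V)
    rw [h5, Module.finrank_fin_fun]
    exact h4
  · intro g x
    rw [res_op τ T hT]
    exact T_rop τ T hT g x

end Pool.Agent.GRA.H21
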